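import Mathlib
import Pool.Agent.FTU.Stmts

/-!
# FTU: row BSL (Bessel inequality for the modes)
-/

set_option autoImplicit false

open MeasureTheory Complex ProbabilityTheory

namespace Pool.Agent.FTU.H95

open Pool.Agent.Helper49_Pauli
open Pool.Agent.FTU

/-- the exponential function with the frequency `2 pi m / ell` -/
noncomputable def ex (ell : ℝ) (m : ℤ) (s : ℝ) : ℂ :=
  cexp (I * ((2 * Real.pi * (m : ℝ) / ell * s : ℝ) : ℂ))

theorem ex_cont (ell : ℝ) (m : ℤ) : Continuous (ex ell m) := by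
  unfold ex
  fun_prop

theorem ex_mul (ell : ℝ) (m n : ℤ) (s : ℝ) :
    ex ell m s * (starRingEnd ℂ) (ex ell n s) =
      cexp ((I * ((2 * Real.pi * ((m : ℝ) - n) / ell : ℝ) : ℂ)) * (s : ℂ)) := by
  unfold ex
  rw [← Complex.exp_conj, ← Complex.exp_add]
  congr 1
  rw [map_mul, Complex.conj_I, Complex.conj_ofReal]
  push_cast
  ring

theorem ex_orth {ell : ℝ} (hl : 0 < ell) (a : ℝ) (m n : ℤ) :
    ∫ s in a..(a + ell), ex ell m s * (starRingEnd ℂ) (ex ell n s) =
      if m = n then (ell : ℂ) else 0 := by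
  by_cases h : m = n
  · rw [if_pos h]
    subst h
    have h1 : ∀ s : ℝ, ex ell m s * (starRingEnd ℂ) (ex ell m s) = 1 := by
      intro s
      rw [ex_mul, sub_self, mul_zero, zero_div, Complex.ofReal_zero, mul_zero, zero_mul,
        Complex.exp_zero]
    simp only [h1]
    rw [intervalIntegral.integral_const]
    simp
  · rw [if_neg h]
    simp only [ex_mul]
    have hmn : ((m : ℝ) - n) ≠ 0 := by
      intro h0
      apply h
      have : (m : ℝ) = n := by linarith
      exact_mod_cast this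
    have hc : (I * ((2 * Real.pi * ((m : ℝ) - n) / ell : ℝ) : ℂ)) ≠ 0 := by
      apply mul_ne_zero Complex.I_ne_zero
      rw [Complex.ofReal_ne_zero]
      have := Real.pi_pos
      positivity
    rw [integral_exp_mul_complex hc]
    have h2 : cexp (I * ((2 * Real.pi * ((m : ℝ) - n) / ell : ℝ) : ℂ) * ((a + ell : ℝ) : ℂ)) =
        cexp (I * ((2 * Real.pi * ((m : ℝ) - n) / ell : ℝ) : ℂ) * (a : ℂ)) := by
      rw [Complex.ofReal_add, mul_add, Complex.exp_add]
      have h3 : cexp (I * ((2 * Real.pi * ((m : ℝ) - n) / ell : ℝ) : ℂ) * (ell : ℂ)) = 1 := by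
        rw [Complex.exp_eq_one_iff]
        refine ⟨m - n, ?_⟩
        have hl' : (ell : ℂ) ≠ 0 := Complex.ofReal_ne_zero.2 hl.ne'
        push_cast
        field_simp
      rw [h3, mul_one]
    rw [h2, sub_self, zero_div]

/-- Bessel inequality for the exponentials on an interval of length at most `ell` -/
theorem bessel {ell : ℝ} (hl : 0 < ell) {g : ℝ → ℝ} (hg : Continuous g) {a b : ℝ} (hab : a ≤ b)
    (hb : b - a ≤ ell) (S : Finset ℤ) :
    ∑ m ∈ S, ‖∫ s in a..b, (g s : ℂ) * ex ell m s‖ ^ 2 ≤ ell * ∫ s in a..b, g s ^ 2 := by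
  obtain ⟨c, hc⟩ : ∃ c : ℤ → ℂ, ∀ m, c m = ∫ s in a..b, (g s : ℂ) * ex ell m s :=
    ⟨_, fun _ => rfl⟩
  simp only [← hc]
  obtain ⟨P, hP⟩ : ∃ P : ℝ → ℂ, ∀ s, P s = ∑ m ∈ S, (starRingEnd ℂ) (c m) * ex ell m s :=
    ⟨_, fun _ => rfl⟩
  have hPc : Continuous P := by
    have : P = fun s => ∑ m ∈ S, (starRingEnd ℂ) (c m) * ex ell m s := funext hP
    rw [this]
    exact continuous_finsetSum _ fun m _ => continuous_const.mul (ex_cont ell m)
  have hgc : Continuous fun s => (g s : ℂ) := Complex.continuous_ofReal.comp hg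
  -- the integral of g P
  have h1 : ∫ s in a..b, (g s : ℂ) * P s = ((∑ m ∈ S, ‖c m‖ ^ 2 : ℝ) : ℂ) := by
    have h2 : ∀ s, (g s : ℂ) * P s = ∑ m ∈ S, (starRingEnd ℂ) (c m) * ((g s : ℂ) * ex ell m s) := by
      intro s
      rw [hP, Finset.mul_sum]
      refine Finset.sum_congr rfl fun m _ => ?_
      ring
    have hcm : ∀ m : ℤ, Continuous fun s =>
        (starRingEnd ℂ) (c m) * ((g s : ℂ) * ex ell m s) :=
      fun m => continuous_const.mul (hgc.mul (ex_cont ell m))
    simp only [h2]
    rw [intervalIntegral.integral_finsetSum fun m _ => (hcm m).intervalIntegrable _ _]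
    rw [Complex.ofReal_sum]
    refine Finset.sum_congr rfl fun m _ => ?_
    rw [intervalIntegral.integral_const_mul, ← hc, mul_comm, Complex.mul_conj,
      Complex.normSq_eq_norm_sq]
  -- the integral of |P|^2 over the large interval
  have h3 : ∫ s in a..(a + ell), ‖P s‖ ^ 2 = ell * ∑ m ∈ S, ‖c m‖ ^ 2 := by
    have h4 : ((∫ s in a..(a + ell), ‖P s‖ ^ 2 : ℝ) : ℂ) = ((ell * ∑ m ∈ S, ‖c m‖ ^ 2 : ℝ) : ℂ) := by
      rw [← intervalIntegral.integral_ofReal]
      have h5 : ∀ s, ((‖P s‖ ^ 2 : ℝ) : ℂ) = ∑ m ∈ S, ∑ n ∈ S,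
          ((starRingEnd ℂ) (c m) * c n) * (ex ell m s * (starRingEnd ℂ) (ex ell n s)) := by
        intro s
        rw [← Complex.normSq_eq_norm_sq, ← Complex.mul_conj, hP, map_sum, Finset.sum_mul_sum]
        refine Finset.sum_congr rfl fun m _ => Finset.sum_congr rfl fun n _ => ?_
        rw [map_mul, Complex.conj_conj]
        ring
      have hcc : ∀ m n : ℤ, Continuous fun s =>
          ((starRingEnd ℂ) (c m) * c n) * (ex ell m s * (starRingEnd ℂ) (ex ell n s)) := by
        intro m n
        exact continuous_const.mul ((ex_cont ell m).mul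
          (Complex.continuous_conj.comp (ex_cont ell n)))
      simp only [h5]
      rw [intervalIntegral.integral_finsetSum fun m _ =>
        (continuous_finsetSum _ fun n _ => hcc m n).intervalIntegrable _ _]
      rw [Complex.ofReal_mul, Complex.ofReal_sum, Finset.mul_sum]
      refine Finset.sum_congr rfl fun m hm => ?_
      rw [intervalIntegral.integral_finsetSum fun n _ => (hcc m n).intervalIntegrable _ _]
      have h6 : ∀ n ∈ S, (∫ s in a..(a + ell), ((starRingEnd ℂ) (c m) * c n) *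
          (ex ell m s * (starRingEnd ℂ) (ex ell n s))) =
          if m = n then (starRingEnd ℂ) (c m) * c n * (ell : ℂ) else 0 := by
        intro n _
        rw [intervalIntegral.integral_const_mul, ex_orth hl]
        split_ifs <;> simp
      rw [Finset.sum_congr rfl h6, Finset.sum_ite_eq, if_pos hm, ← Complex.normSq_eq_norm_sq,
        ← Complex.mul_conj]
      ring
    exact_mod_cast h4
  have h7 : ∫ s in a..b, ‖P s‖ ^ 2 ≤ ell * ∑ m ∈ S, ‖c m‖ ^ 2 := by
    rw [← h3]
    have hPn : Continuous fun s => ‖P s‖ ^ 2 := (continuous_norm.comp hPc).pow 2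
    rw [← intervalIntegral.integral_add_adjacent_intervals (b := b)
      (hPn.intervalIntegrable a b) (hPn.intervalIntegrable b (a + ell))]
    have h8 : 0 ≤ ∫ s in b..(a + ell), ‖P s‖ ^ 2 :=
      intervalIntegral.integral_nonneg (by linarith) fun s _ => by positivity
    linarith
  -- the real part
  have h9 : ∫ s in a..b, g s * (P s).re = ∑ m ∈ S, ‖c m‖ ^ 2 := by
    have h10 : ∀ s, g s * (P s).re = Complex.reCLM ((g s : ℂ) * P s) := by
      intro s
      rw [Complex.reCLM_apply, Complex.re_ofReal_mul]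
    have hgP : Continuous fun s => (g s : ℂ) * P s := hgc.mul hPc
    simp only [h10]
    rw [Complex.reCLM.intervalIntegral_comp_comm (hgP.intervalIntegrable a b), h1,
      Complex.reCLM_apply, Complex.ofReal_re]
  -- the square
  have h11 : 0 ≤ ∫ s in a..b, ‖((ell * g s : ℝ) : ℂ) - (starRingEnd ℂ) (P s)‖ ^ 2 :=
    intervalIntegral.integral_nonneg hab fun s _ => by positivity
  have h12 : ∀ s, ‖((ell * g s : ℝ) : ℂ) - (starRingEnd ℂ) (P s)‖ ^ 2 =
      ell ^ 2 * g s ^ 2 - 2 * ell * (g s * (P s).re) + ‖P s‖ ^ 2 := by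
    intro s
    rw [← Complex.normSq_eq_norm_sq, ← Complex.normSq_eq_norm_sq, Complex.normSq_apply,
      Complex.normSq_apply]
    simp only [Complex.sub_re, Complex.sub_im, Complex.ofReal_re, Complex.ofReal_im,
      Complex.conj_re, Complex.conj_im]
    ring
  simp only [h12] at h11
  have hi1 : IntervalIntegrable (fun s => ell ^ 2 * g s ^ 2) volume a b :=
    (continuous_const.mul (hg.pow 2)).intervalIntegrable _ _
  have hi2 : IntervalIntegrable (fun s => 2 * ell * (g s * (P s).re)) volume a b :=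
    (continuous_const.mul (hg.mul (Complex.continuous_re.comp hPc))).intervalIntegrable _ _
  have hi3 : IntervalIntegrable (fun s => ‖P s‖ ^ 2) volume a b :=
    ((continuous_norm.comp hPc).pow 2).intervalIntegrable _ _
  rw [intervalIntegral.integral_add (hi1.sub hi2) hi3, intervalIntegral.integral_sub hi1 hi2,
    intervalIntegral.integral_const_mul, intervalIntegral.integral_const_mul, h9] at h11
  have h13 : 0 ≤ ell * (ell * (∫ s in a..b, g s ^ 2) - ∑ m ∈ S, ‖c m‖ ^ 2) := by
    nlinarith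
  have h14 := nonneg_of_mul_nonneg_right h13 hl
  linarith

theorem mem_mom {cut L : ℝ} {n : Fin 3 → ℤ} (h : n ∈ momenta cut L) : n ≠ 0 ∧ freq L n < cut := by
  unfold momenta at h
  split_ifs at h with hf
  · exact hf.mem_toFinset.1 h
  · exact absurd h (Finset.notMem_empty _)

theorem abs_lt {cut L : ℝ} (hL : 0 < L) {n : Fin 3 → ℤ} (h : freq L n < cut) (j : Fin 3) :
    |(n j : ℝ)| < L * cut / (2 * Real.pi) := by
  have hpi := Real.pi_pos
  have h1 : |wave L n j| ≤ freq L n := by
    unfold freq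
    rw [← Real.sqrt_sq_eq_abs]
    apply Real.sqrt_le_sqrt
    unfold Helper49_Pauli.sq
    exact Finset.single_le_sum (f := fun j => wave L n j ^ 2) (fun i _ => sq_nonneg _)
      (Finset.mem_univ j)
  have h2 : |wave L n j| = 2 * Real.pi / L * |(n j : ℝ)| := by
    unfold wave
    rw [abs_mul, abs_of_pos (by positivity)]
  rw [h2] at h1
  have h3 := lt_of_le_of_lt h1 h
  rw [lt_div_iff₀ (by positivity)]
  have h4 : 2 * Real.pi / L * |(n j : ℝ)| * L = |(n j : ℝ)| * (2 * Real.pi) := by
    field_simp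
  calc |(n j : ℝ)| * (2 * Real.pi) = 2 * Real.pi / L * |(n j : ℝ)| * L := h4.symm
    _ < cut * L := by gcongr
    _ = L * cut := mul_comm _ _

theorem bsl : BslStmt := by
  refine ⟨1, one_pos, ?_⟩
  intro cut L hcut hL g a b hg hab hb
  have hell : 0 < L * cut := mul_pos hL hcut
  have hint : 0 ≤ ∫ s in a..b, g s ^ 2 :=
    intervalIntegral.integral_nonneg hab fun s _ => by positivity
  rcases (momenta cut L).eq_empty_or_nonempty with hemp | ⟨n0, hn0⟩
  · rw [hemp, Finset.sum_empty]
    positivity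
  · have hpi := Real.pi_gt_three
    -- the radius is at least one
    have hR : 1 < L * cut / (2 * Real.pi) := by
      obtain ⟨hne, hfr⟩ := mem_mom hn0
      obtain ⟨j, hj⟩ := Function.ne_iff.1 hne
      have h1 := abs_lt hL hfr j
      have h2 : (1 : ℝ) ≤ |(n0 j : ℝ)| := by
        have h3 : (1 : ℤ) ≤ |n0 j| := Int.one_le_abs hj
        exact_mod_cast h3
      linarith
    have hphase : ∀ (n : Fin 3 → ℤ) (s : ℝ),
        cexp (I * ((wave L n 2 / cut * s : ℝ) : ℂ)) = ex (L * cut) (n 2) s := by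
      intro n s
      unfold ex wave
      have h4 : 2 * Real.pi / L * (n 2 : ℝ) / cut * s = 2 * Real.pi * (n 2 : ℝ) / (L * cut) * s := by
        field_simp
      rw [h4]
    simp only [hphase]
    obtain ⟨F, hF⟩ : ∃ F : ℤ → ℝ, ∀ m, F m = ‖∫ s in a..b, (g s : ℂ) * ex (L * cut) m s‖ ^ 2 :=
      ⟨_, fun _ => rfl⟩
    have hF0 : ∀ m, 0 ≤ F m := fun m => by rw [hF]; positivity
    simp only [← hF]
    obtain ⟨N, hN⟩ : ∃ N : ℤ, N = ⌊L * cut / (2 * Real.pi)⌋ := ⟨_, rfl⟩
    have hsub : (momenta cut L).image (fun n => ((n 0, n 1), n 2)) ⊆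
        (Finset.Icc (-N) N ×ˢ Finset.Icc (-N) N) ×ˢ Finset.Icc (-N) N := by
      intro p hp
      rw [Finset.mem_image] at hp
      obtain ⟨n, hn, rfl⟩ := hp
      have h5 : ∀ j, n j ∈ Finset.Icc (-N) N := by
        intro j
        have h6 := abs_lt hL (mem_mom hn).2 j
        have h7 : |n j| ≤ N := by
          rw [hN, Int.le_floor]
          push_cast
          exact h6.le
        exact Finset.mem_Icc.2 (abs_le.1 h7)
      simp only [Finset.mem_product]
      exact ⟨⟨h5 0, h5 1⟩, h5 2⟩
    have hinj : Set.InjOn (fun n : Fin 3 → ℤ => ((n 0, n 1), n 2)) (momenta cut L : Set _) := by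
      intro n _ m _ h
      simp only [Prod.mk.injEq] at h
      funext j
      fin_cases j
      · exact h.1.1
      · exact h.1.2
      · exact h.2
    have h8 : ∑ n ∈ momenta cut L, F (n 2) =
        ∑ p ∈ (momenta cut L).image (fun n => ((n 0, n 1), n 2)), F p.2 := by
      rw [Finset.sum_image hinj]
    have hcard : ((Finset.Icc (-N) N ×ˢ Finset.Icc (-N) N).card : ℝ) ≤ (L * cut) ^ 2 := by
      rw [Finset.card_product, Int.card_Icc]
      have hN1 : 1 ≤ N := by
        rw [hN, Int.le_floor]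
        push_cast
        exact hR.le
      have h9 : (((N + 1 - -N).toNat : ℕ) : ℝ) = 2 * (N : ℝ) + 1 := by
        have h10 : (((N + 1 - -N).toNat : ℕ) : ℤ) = 2 * N + 1 := by
          rw [Int.toNat_of_nonneg (by omega)]
          ring
        exact_mod_cast h10
      have hNR : (N : ℝ) ≤ L * cut / (2 * Real.pi) := by
        rw [hN]
        exact Int.floor_le _
      have h11 : 2 * (N : ℝ) + 1 ≤ L * cut := by
        have h12 : 2 * (N : ℝ) + 1 ≤ 3 * (L * cut / (2 * Real.pi)) := by linarith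
        have h13 : 3 * (L * cut / (2 * Real.pi)) ≤ L * cut := by
          rw [mul_div_assoc', div_le_iff₀ (by positivity)]
          nlinarith
        linarith
      have h14 : (0 : ℝ) ≤ 2 * (N : ℝ) + 1 := by
        have : (1 : ℝ) ≤ N := by exact_mod_cast hN1
        linarith
      push_cast
      rw [h9, pow_two]
      exact mul_le_mul h11 h11 h14 hell.le
    calc ∑ n ∈ momenta cut L, F (n 2)
        = ∑ p ∈ (momenta cut L).image (fun n => ((n 0, n 1), n 2)), F p.2 := h8
      _ ≤ ∑ p ∈ (Finset.Icc (-N) N ×ˢ Finset.Icc (-N) N) ×ˢ Finset.Icc (-N) N, F p.2 :=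
          Finset.sum_le_sum_of_subset_of_nonneg hsub fun p _ _ => hF0 p.2
      _ = ((Finset.Icc (-N) N ×ˢ Finset.Icc (-N) N).card : ℝ) * ∑ m ∈ Finset.Icc (-N) N, F m := by
          rw [Finset.sum_product]
          simp only [Finset.sum_const, nsmul_eq_mul]
      _ ≤ (L * cut) ^ 2 * (L * cut * ∫ s in a..b, g s ^ 2) := by
          apply mul_le_mul hcard _ (Finset.sum_nonneg fun m _ => hF0 m) (by positivity)
          simp only [hF]
          exact bessel hell hg hab hb _
      _ = 1 * (L * cut) ^ 3 * ∫ s in a..b, g s ^ 2 := by ring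

end Pool.Agent.FTU.H95
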